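import Pool.Agent.H86.DB.Targets

/-!
Growth of the smoothability defect, row PTS: the fibre of points.
-/

set_option autoImplicit false

open Module MvPolynomial

namespace Pool.Agent.H41.DB

open Pool.Agent.H86.DB

universe u

/-- values at which a split polynomial with distinct roots has all its preimages distinct -/
lemma exists_ac (k : Type u) [Field k] [IsAlgClosed k] (R : ℕ) (hR : 1 ≤ R) :
    ∃ (a : Fin R → k) (c : ℕ → k), Function.Injective c ∧
      ∀ i, ∃ S : Finset k, S.card = R ∧ ∀ z ∈ S, ∏ j, (z - a j) = c i := by
  classical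
  haveI : Infinite k := inferInstance
  let a : Fin R → k := fun i => Infinite.natEmbedding k i
  have ha : Function.Injective a := fun i j h => Fin.ext ((Infinite.natEmbedding k).injective h)
  let P : Polynomial k := ∏ i, (Polynomial.X - Polynomial.C (a i))
  have hPs : P.Separable := Polynomial.separable_prod_X_sub_C_iff.2 ha
  have hPm : P.Monic := Polynomial.monic_prod_of_monic _ _ fun i _ => Polynomial.monic_X_sub_C _
  have hPd : P.natDegree = R := by
    change (∏ i, (Polynomial.X - Polynomial.C (a i))).natDegree = R
    rw [Polynomial.natDegree_prod_of_monic _ _ fun i _ => Polynomial.monic_X_sub_C _]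
    simp
  have hd0 : Polynomial.derivative P ≠ 0 := by
    intro h0
    have h1 : IsCoprime P (Polynomial.derivative P) := hPs
    rw [h0, isCoprime_zero_right] at h1
    have h2 := Polynomial.natDegree_eq_zero_of_isUnit h1
    omega
  let B : Finset k := (Polynomial.derivative P).roots.toFinset.image (fun z => P.eval z)
  have hB : (↑B : Set k)ᶜ.Infinite := B.finite_toSet.infinite_compl
  let c : ℕ → k := fun i => (hB.natEmbedding _ i : k)
  have hc : Function.Injective c := fun i j h => (hB.natEmbedding _).injective (Subtype.ext h)
  refine ⟨a, c, hc, fun i => ⟨(P - Polynomial.C (c i)).roots.toFinset, ?_, fun z hz => ?_⟩⟩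
  · have hci : c i ∉ B := (hB.natEmbedding _ i).2
    have hsep : (P - Polynomial.C (c i)).Separable := by
      change IsCoprime _ _
      rw [Polynomial.isCoprime_iff_aeval_ne_zero_of_isAlgClosed (k := k) k]
      intro z
      by_contra hcon
      push Not at hcon
      obtain ⟨h1, h2⟩ := hcon
      rw [Polynomial.derivative_sub, Polynomial.derivative_C, sub_zero] at h2
      rw [Polynomial.coe_aeval_eq_eval] at h1 h2
      rw [Polynomial.eval_sub, Polynomial.eval_C, sub_eq_zero] at h1
      refine hci ?_
      rw [← h1]
      refine Finset.mem_image_of_mem _ ?_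
      rw [Multiset.mem_toFinset, Polynomial.mem_roots hd0]
      exact h2
    have hnd := Polynomial.nodup_roots hsep
    rw [Multiset.toFinset_card_of_nodup hnd]
    have h3 := Polynomial.splits_iff_card_roots.1 (IsAlgClosed.splits (P - Polynomial.C (c i)))
    rw [h3, Polynomial.natDegree_sub_C, hPd]
  · rw [Multiset.mem_toFinset] at hz
    have h1 := (Polynomial.mem_roots'.1 hz).2
    rw [Polynomial.IsRoot, Polynomial.eval_sub, Polynomial.eval_C, sub_eq_zero] at h1
    rw [← h1]
    change _ = (∏ i, (Polynomial.X - Polynomial.C (a i))).eval z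
    rw [Polynomial.eval_prod]
    simp

/-- **Row PTS.** -/
theorem pf_PTS (hQ : T_QB.{u}) : T_PTS.{u} := by
  classical
  intro k _ _ m R n hR
  obtain ⟨a, c, hc, hS⟩ := exists_ac k R hR
  choose S hSc hSv using hS
  refine ⟨a, c, ?_⟩
  set F : Fin m → MvPolynomial (Fin m) k := fun j => ∏ i, (X j - C (a i)) with hF
  have hFe : ∀ (x : Fin m → k) j, eval x (F j) = ∏ i, (x j - a i) := by
    intro x j
    rw [hF]
    simp [map_prod]
  -- leading forms
  have hL : Lead R F := by
    intro j
    have hPm : (∏ i, (Polynomial.X - Polynomial.C (a i)) : Polynomial k).Monic :=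
      Polynomial.monic_prod_of_monic _ _ fun i _ => Polynomial.monic_X_sub_C _
    have hPd : (∏ i, (Polynomial.X - Polynomial.C (a i)) : Polynomial k).natDegree = R := by
      rw [Polynomial.natDegree_prod_of_monic _ _ fun i _ => Polynomial.monic_X_sub_C _]
      simp
    have h1 : F j - X j ^ R = Polynomial.aeval (X j : MvPolynomial (Fin m) k)
        ((∏ i, (Polynomial.X - Polynomial.C (a i)) : Polynomial k) - Polynomial.X ^ R) := by
      rw [hF]
      simp [map_prod]
    have h2 : ((∏ i, (Polynomial.X - Polynomial.C (a i)) : Polynomial k)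
        - Polynomial.X ^ R).natDegree < R := by
      by_cases h0 : (∏ i, (Polynomial.X - Polynomial.C (a i)) : Polynomial k)
        - Polynomial.X ^ R = 0
      · rw [h0, Polynomial.natDegree_zero]
        omega
      · rw [Polynomial.natDegree_lt_iff_degree_lt h0]
        have h3 := Polynomial.degree_sub_lt (p := ∏ i, (Polynomial.X - Polynomial.C (a i)))
          (q := Polynomial.X ^ R) (by
            rw [Polynomial.degree_eq_natDegree hPm.ne_zero, hPd, Polynomial.degree_X_pow])
          hPm.ne_zero (by rw [hPm.leadingCoeff, Polynomial.leadingCoeff_X_pow])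
        rwa [Polynomial.degree_eq_natDegree hPm.ne_zero, hPd] at h3
    rw [h1, Polynomial.as_sum_range' _ R h2, map_sum]
    refine lt_of_le_of_lt (totalDegree_finsetSum_le (d := R - 1) fun i hi => ?_) (by omega)
    rw [Polynomial.aeval_monomial, ← Algebra.smul_def]
    refine (totalDegree_smul_le _ _).trans ?_
    rw [totalDegree_X_pow]
    have := Finset.mem_range.1 hi
    omega
  let I := NI F (fun _ => c) (n + 1)
  have hI : I = NI F (fun _ => c) (n + 1) := rfl
  obtain ⟨b, hb⟩ : ∃ b : Basis (Ix m R n) k (MvPolynomial (Fin m) k ⧸ I),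
      ∀ p : Ix m R n, b p = Ideal.Quotient.mk I
        (mo k p.1 * nw F (fun _ => c) fun j => (p.2.1 j : ℕ)) := hQ k m R F (fun _ => c) n hL
  -- values of the Newton products
  have hnw : ∀ (x : Fin m → k) (g e : Fin m → ℕ), (∀ j, x j ∈ S (g j)) →
      eval x (nw F (fun _ => c) e) = ∏ j, ∏ i ∈ Finset.range (e j), (c (g j) - c i) := by
    intro x g e hx
    unfold nw
    rw [map_prod]
    refine Finset.prod_congr rfl fun j _ => ?_
    rw [map_prod]
    refine Finset.prod_congr rfl fun i _ => ?_
    rw [map_sub, hFe, eval_C, hSv _ _ (hx j)]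
  have hnw0 : ∀ (x : Fin m → k) (g e : Fin m → ℕ), (∀ j, x j ∈ S (g j)) → (∃ j, g j < e j) →
      eval x (nw F (fun _ => c) e) = 0 := by
    intro x g e hx hj
    obtain ⟨j, hj⟩ := hj
    rw [hnw x g e hx]
    refine Finset.prod_eq_zero (Finset.mem_univ j) ?_
    exact Finset.prod_eq_zero (Finset.mem_range.2 hj) (sub_self _)
  have hnw1 : ∀ (x : Fin m → k) (g : Fin m → ℕ), (∀ j, x j ∈ S (g j)) →
      eval x (nw F (fun _ => c) g) ≠ 0 := by
    intro x g hx
    rw [hnw x g g hx]
    refine Finset.prod_ne_zero_iff.2 fun j _ => Finset.prod_ne_zero_iff.2 fun i hi => ?_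
    rw [sub_ne_zero]
    intro h
    have := hc h
    have := Finset.mem_range.1 hi
    omega
  -- the points kill the ideal
  have hkill : ∀ f ∈ I, ∀ (x : Fin m → k) (g : Fin m → ℕ), ∑ j, g j ≤ n →
      (∀ j, x j ∈ S (g j)) → eval x f = 0 := by
    intro f hf x g hg hx
    have h1 : I ≤ RingHom.ker (eval x) := by
      rw [hI, NI, Ideal.span_le]
      rintro p ⟨e, he, rfl⟩
      change eval x _ = 0
      refine hnw0 x g e hx ?_
      by_contra hcon
      push Not at hcon
      have := Finset.sum_le_sum fun j (_ : j ∈ Finset.univ) => hcon j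
      omega
    exact h1 hf
  -- a polynomial which vanishes at the points is in the ideal
  have hmem : ∀ f : MvPolynomial (Fin m) k, (∀ (x : Fin m → k) (g : Fin m → ℕ), ∑ j, g j ≤ n →
      (∀ j, x j ∈ S (g j)) → eval x f = 0) → f ∈ I := by
    intro f hf
    set κ : Ix m R n → k := fun p => b.repr (Ideal.Quotient.mk I f) p with hκ
    set f' : MvPolynomial (Fin m) k :=
      ∑ p, C (κ p) * (mo k p.1 * nw F (fun _ => c) fun j => (p.2.1 j : ℕ)) with hf'
    have h1 : Ideal.Quotient.mk I f = Ideal.Quotient.mk I f' := by
      rw [← b.sum_repr (Ideal.Quotient.mk I f), hf', map_sum]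
      refine Finset.sum_congr rfl fun p _ => ?_
      rw [hb p, ← smul_eq_C_mul]
      rfl
    have h2 : f - f' ∈ I := (Ideal.Quotient.eq).1 h1
    have h3 : ∀ (x : Fin m → k) (g : Fin m → ℕ), ∑ j, g j ≤ n → (∀ j, x j ∈ S (g j)) →
        eval x f' = 0 := by
      intro x g hg hx
      have h4 := hkill _ h2 x g hg hx
      rw [map_sub, hf x g hg hx, zero_sub, neg_eq_zero] at h4
      exact h4
    have h5 : ∀ s : ℕ, ∀ p : Ix m R n, ∑ j, (p.2.1 j : ℕ) = s → κ p = 0 := by
      intro s
      induction s using Nat.strong_induction_on with
      | _ s ih =>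
        intro p hp
        obtain ⟨α₀, β₀⟩ := p
        let q : MvPolynomial (Fin m) k := ∑ α : Fin m → Fin R,
          monomial (Finsupp.equivFunOnFinite.symm fun j => (α j : ℕ)) (κ (α, β₀))
        have hq : q = 0 := by
          refine eq_zero_of_eval_zero_at_prod_finset q (fun j => S (β₀.1 j)) ?_ ?_
          · intro j
            rw [hSc, degreeOf_lt_iff (by omega)]
            intro e he
            have h9 := support_sum he
            rw [Finset.mem_biUnion] at h9
            obtain ⟨α, _, h10⟩ := h9
            have h11 := support_monomial_subset h10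
            rw [Finset.mem_singleton] at h11
            rw [h11]
            exact (α j).2
          · intro x hx
            have h6 := h3 x (fun j => (β₀.1 j : ℕ)) β₀.2 hx
            have h7 : eval x f' = eval x q * eval x (nw F (fun _ => c) fun j => (β₀.1 j : ℕ)) := by
              rw [hf', map_sum, map_sum, Finset.sum_mul, Fintype.sum_prod_type]
              refine Finset.sum_congr rfl fun α _ => ?_
              rw [Finset.sum_eq_single β₀]
              · rw [map_mul, map_mul, eval_C, mo, map_prod, eval_monomial, ← mul_assoc]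
                congr 1
                congr 1
                rw [Finsupp.prod_fintype _ _ fun i => pow_zero _]
                simp
              · intro β _ hβ
                by_cases h8 : ∃ j, (β₀.1 j : ℕ) < (β.1 j : ℕ)
                · rw [map_mul, map_mul, hnw0 x (fun j => (β₀.1 j : ℕ)) _ hx h8, mul_zero, mul_zero]
                · push Not at h8
                  have h9 : ∑ j, (β.1 j : ℕ) < ∑ j, (β₀.1 j : ℕ) := by
                    refine Finset.sum_lt_sum (fun j _ => h8 j) ?_
                    by_contra h10
                    push Not at h10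
                    refine hβ (Subtype.ext (funext fun j => Fin.ext ?_))
                    exact le_antisymm (h8 j) (h10 j (Finset.mem_univ j))
                  have h11 : κ (α, β) = 0 := ih _ (lt_of_lt_of_eq h9 hp) (α, β) rfl
                  rw [h11, C_0, zero_mul, map_zero]
              · exact fun h => absurd (Finset.mem_univ _) h
            rw [h7] at h6
            exact (mul_eq_zero.1 h6).resolve_right (hnw1 x _ hx)
        have h8 : coeff (Finsupp.equivFunOnFinite.symm fun j => (α₀ j : ℕ)) q = κ (α₀, β₀) := by
          change coeff _ (∑ α : Fin m → Fin R, _) = _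
          rw [coeff_sum, Finset.sum_eq_single α₀]
          · rw [coeff_monomial, if_pos rfl]
          · intro α _ hα
            rw [coeff_monomial, if_neg]
            intro h
            refine hα (funext fun j => Fin.ext ?_)
            have := congrFun (Finsupp.equivFunOnFinite.symm.injective h) j
            exact this
          · exact fun h => absurd (Finset.mem_univ _) h
        rw [← h8, hq, coeff_zero]
    have h6 : f' = 0 := by
      rw [hf']
      refine Finset.sum_eq_zero fun p _ => ?_
      rw [h5 _ p rfl, C_0, zero_mul]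
    rw [h6, sub_zero] at h2
    exact h2
  refine (Ideal.isRadical_iff_quotient_reduced I).1 fun f hf => ?_
  obtain ⟨N, hN⟩ := hf
  refine hmem f fun x g hg hx => ?_
  have h1 := hkill _ hN x g hg hx
  rw [map_pow] at h1
  exact eq_zero_of_pow_eq_zero h1

end Pool.Agent.H41.DB
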